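import Pool.Agent.Work.MP_a81742_lc.MDeg

/-!
# Decision trees with threshold queries of low degree cannot compute the parity of the maximum
-/

namespace O2PP

open Finset

/-- decision trees over sequences of bits: queries to single bits and to predicates -/
inductive QTree : Type
  | leaf (b : Bool) : QTree
  | bit (i : ℕ) (t0 t1 : QTree) : QTree
  | thr (P : (ℕ → Bool) → Prop) (t0 t1 : QTree) : QTree

open Classical in
/-- the value of a decision tree -/
noncomputable def QTree.eval : QTree → (ℕ → Bool) → Bool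
  | .leaf b, _ => b
  | .bit i t0 t1, x => if x i = true then t1.eval x else t0.eval x
  | .thr P t0 t1, x => if P x then t1.eval x else t0.eval x

/-- threshold predicates of degree at most `d` and weight at most `2 ^ w` -/
def Thr (d w : ℕ) (P : (ℕ → Bool) → Prop) : Prop :=
  ∃ p : (ℕ → Bool) → ℤ, MDeg d p ∧ (∀ x, p x ≠ 0) ∧ (∀ x, |p x| ≤ 2 ^ w) ∧ ∀ x, P x ↔ 0 < p x

/-- on every path there are at most `τ` bit queries and at most `q` threshold queries, all of them
of degree at most `d` and weight at most `2 ^ w` -/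
inductive Fits (d w : ℕ) : ℕ → ℕ → QTree → Prop
  | leaf {τ q : ℕ} (b : Bool) : Fits d w τ q (.leaf b)
  | bit {τ q : ℕ} (i : ℕ) {t0 t1 : QTree} (h0 : Fits d w τ q t0) (h1 : Fits d w τ q t1) :
      Fits d w (τ + 1) q (.bit i t0 t1)
  | thr {τ q : ℕ} {P : (ℕ → Bool) → Prop} {t0 t1 : QTree} (hP : Thr d w P)
      (h0 : Fits d w τ q t0) (h1 : Fits d w τ q t1) : Fits d w τ (q + 1) (.thr P t0 t1)

theorem exists_free (U : Finset ℕ) {τ : ℕ} (hU : U.card ≤ τ) (lo l : ℕ) :
    ∃ s ≤ τ, ∀ i, lo + s * l ≤ i → i < lo + (s + 1) * l → i ∉ U := by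
  by_contra hcon
  push Not at hcon
  have h1 : ∀ s : ℕ, ∃ i, s ≤ τ → lo + s * l ≤ i ∧ i < lo + (s + 1) * l ∧ i ∈ U := by
    intro s
    by_cases hs : s ≤ τ
    · obtain ⟨i, h1, h2, h3⟩ := hcon s hs
      exact ⟨i, fun _ => ⟨h1, h2, h3⟩⟩
    · exact ⟨0, fun h => absurd h hs⟩
  choose f hf using h1
  have hcard : (range (τ + 1)).card ≤ U.card := by
    refine card_le_card_of_injOn f (fun s hs => ?_) ?_
    · exact (hf s (Nat.lt_succ_iff.1 (mem_range.1 hs))).2.2
    · intro s hs s' hs' hss
      have hs1 := hf s (Nat.lt_succ_iff.1 (mem_range.1 hs))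
      have hs2 := hf s' (Nat.lt_succ_iff.1 (mem_range.1 hs'))
      rw [← hss] at hs2
      by_contra hne
      rcases lt_or_gt_of_ne hne with h | h
      · have : (s + 1) * l ≤ s' * l := Nat.mul_le_mul_right l h
        omega
      · have : (s' + 1) * l ≤ s * l := Nat.mul_le_mul_right l h
        omega
  rw [card_range] at hcard
  omega

/-- the length of the alive interval which is needed for `q` threshold queries -/
def need (d w τ q : ℕ) : ℕ := 2 * (τ + 1) * ((τ + 1) * ((16 * d ^ 2 + 1) * (w + 1))) ^ q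

theorem adversary_aux {d w τ : ℕ} {T : QTree} {τ' q : ℕ} (hT : Fits d w τ' q T) :
    ∀ (U : Finset ℕ) (x : ℕ → Bool) (lo hi : ℕ), U.card + τ' ≤ τ → lo + need d w τ q ≤ hi →
      (∀ i, lo ≤ i → i < hi → x i = false) →
      ∃ (x' : ℕ → Bool) (a : ℕ), lo ≤ a ∧ a + 2 ≤ hi ∧
        (∀ i, ¬ (lo ≤ i ∧ i < a) → x' i = x i) ∧ (∀ i ∈ U, x' i = x i) ∧ a ∉ U ∧ a + 1 ∉ U ∧
        ∀ x'' : ℕ → Bool, (∀ i, i ≠ a → i ≠ a + 1 → x'' i = x' i) → T.eval x'' = T.eval x' := by
  induction hT with
  | leaf b =>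
    intro U x lo hi hU hlen hx
    obtain ⟨s, hs, hfree⟩ := exists_free U (le_trans (Nat.le_add_right _ _) hU) lo 2
    rename_i τ' q
    have h1 : 2 * (τ + 1) ≤ need d w τ q := by
      unfold need
      exact Nat.le_mul_of_pos_right _ (pow_pos (by positivity) _)
    refine ⟨x, lo + s * 2, by omega, by omega, fun i _ => rfl, fun i _ => rfl,
      hfree _ le_rfl (by omega), hfree _ (by omega) (by omega), fun x'' _ => rfl⟩
  | @bit τ' q i t0 t1 h0 h1 ih0 ih1 =>
    intro U x lo hi hU hlen hx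
    have hU' : (insert i U).card + τ' ≤ τ := by
      have := card_insert_le i U
      omega
    rcases hxi : x i with _ | _
    · obtain ⟨x', a, ha1, ha2, ha3, ha4, ha5, ha6, ha7⟩ := ih0 (insert i U) x lo hi hU' hlen hx
      have hne : i ≠ a := fun h => ha5 (h ▸ mem_insert_self i U)
      have hne' : i ≠ a + 1 := fun h => ha6 (h ▸ mem_insert_self i U)
      have hi' : x' i = false := (ha4 i (mem_insert_self i U)).trans hxi
      refine ⟨x', a, ha1, ha2, ha3, fun j hj => ha4 j (mem_insert_of_mem hj),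
        fun h => ha5 (mem_insert_of_mem h), fun h => ha6 (mem_insert_of_mem h), fun x'' hx'' => ?_⟩
      have hi'' : x'' i = false := (hx'' i hne hne').trans hi'
      simp only [QTree.eval, hi', hi'', Bool.false_eq_true, if_false]
      exact ha7 x'' hx''
    · obtain ⟨x', a, ha1, ha2, ha3, ha4, ha5, ha6, ha7⟩ := ih1 (insert i U) x lo hi hU' hlen hx
      have hne : i ≠ a := fun h => ha5 (h ▸ mem_insert_self i U)
      have hne' : i ≠ a + 1 := fun h => ha6 (h ▸ mem_insert_self i U)
      have hi' : x' i = true := (ha4 i (mem_insert_self i U)).trans hxi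
      refine ⟨x', a, ha1, ha2, ha3, fun j hj => ha4 j (mem_insert_of_mem hj),
        fun h => ha5 (mem_insert_of_mem h), fun h => ha6 (mem_insert_of_mem h), fun x'' hx'' => ?_⟩
      have hi'' : x'' i = true := (hx'' i hne hne').trans hi'
      simp only [QTree.eval, hi', hi'', if_true]
      exact ha7 x'' hx''
  | @thr τ' q P t0 t1 hP h0 h1 ih0 ih1 =>
    intro U x lo hi hU hlen hx
    obtain ⟨p, hp, hne, hw, hPp⟩ := hP
    set m : ℕ := (16 * d ^ 2 + 1) * (w + 1) with hm
    set L : ℕ := need d w τ q with hL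
    have hneed : need d w τ (q + 1) = (τ + 1) * (m * L) := by
      rw [hL]
      unfold need
      rw [← hm, pow_succ]
      ring
    obtain ⟨s, hs, hfree⟩ := exists_free U (le_trans (Nat.le_add_right _ _) hU) lo (m * L)
    set lo1 : ℕ := lo + s * (m * L) with hlo1
    have hlo1hi : lo1 + m * L ≤ hi := by
      have h2 : (s + 1) * (m * L) ≤ (τ + 1) * (m * L) := Nat.mul_le_mul_right _ (by omega)
      have h3 : (s + 1) * (m * L) = s * (m * L) + m * L := by ring
      omega
    let B : ℕ → Set ℕ := fun j => {i | lo1 + j * L ≤ i ∧ i < lo1 + (j + 1) * L}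
    have hB : ∀ i < m, ∀ j < m, i ≠ j → Disjoint (B i) (B j) := by
      intro i _ j _ hij
      refine Set.disjoint_left.2 ?_
      rintro k ⟨h1, h2⟩ ⟨h3, h4⟩
      rcases lt_or_gt_of_ne hij with h | h
      · have : (i + 1) * L ≤ j * L := Nat.mul_le_mul_right L h
        omega
      · have : (j + 1) * L ≤ i * L := Nat.mul_le_mul_right L h
        omega
    obtain ⟨j, hj, x1, hx1, hsgn⟩ := key_lemma hp hne hw hm.ge B hB x
    set lo2 : ℕ := lo1 + j * L with hlo2
    have hj1 : (j + 1) * L = j * L + L := by ring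
    have hjm : (j + 1) * L ≤ m * L := Nat.mul_le_mul_right L hj
    have hx1' : ∀ i, ¬ (lo1 ≤ i ∧ i < lo2) → x1 i = x i := by
      intro i hi
      refine hx1 i fun k hk hik => hi ?_
      obtain ⟨h2, h3⟩ := hik
      have : (k + 1) * L ≤ j * L := Nat.mul_le_mul_right L hk
      constructor
      · exact le_trans (Nat.le_add_right _ _) h2
      · omega
    have hx1U : ∀ i ∈ U, x1 i = x i := by
      intro i hi
      refine hx1' i fun h => ?_
      refine hfree i h.1 ?_ hi
      have h3 : (s + 1) * (m * L) = s * (m * L) + m * L := by ring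
      omega
    have hfalse : ∀ i, lo2 ≤ i → i < lo2 + L → x1 i = false := by
      intro i h2 h3
      rw [hx1' i (by omega)]
      exact hx i (by omega) (by omega)
    have hgoal : ∀ (t : QTree), (∀ x'' : ℕ → Bool, (P x'' ↔ P x1) →
        (QTree.thr P t0 t1).eval x'' = t.eval x'') →
        (∃ (x' : ℕ → Bool) (a : ℕ), lo2 ≤ a ∧ a + 2 ≤ lo2 + L ∧
          (∀ i, ¬ (lo2 ≤ i ∧ i < a) → x' i = x1 i) ∧ (∀ i ∈ U, x' i = x1 i) ∧ a ∉ U ∧ a + 1 ∉ U ∧
          ∀ x'' : ℕ → Bool, (∀ i, i ≠ a → i ≠ a + 1 → x'' i = x' i) → t.eval x'' = t.eval x') →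
        ∃ (x' : ℕ → Bool) (a : ℕ), lo ≤ a ∧ a + 2 ≤ hi ∧
          (∀ i, ¬ (lo ≤ i ∧ i < a) → x' i = x i) ∧ (∀ i ∈ U, x' i = x i) ∧ a ∉ U ∧ a + 1 ∉ U ∧
          ∀ x'' : ℕ → Bool, (∀ i, i ≠ a → i ≠ a + 1 → x'' i = x' i) →
            (QTree.thr P t0 t1).eval x'' = (QTree.thr P t0 t1).eval x' := by
      rintro t ht ⟨x', a, ha1, ha2, ha3, ha4, ha5, ha6, ha7⟩
      have hPc : ∀ x'' : ℕ → Bool, (∀ i, i ≠ a → i ≠ a + 1 → x'' i = x' i) → (P x'' ↔ P x1) := by
        intro x'' hx''
        rw [hPp, hPp]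
        refine hsgn x'' fun i hi => ?_
        have hia : i ≠ a := fun h => hi ⟨by omega, by omega⟩
        have hia' : i ≠ a + 1 := fun h => hi ⟨by omega, by omega⟩
        rw [hx'' i hia hia']
        refine ha3 i fun h => hi ⟨by omega, by omega⟩
      refine ⟨x', a, by omega, by omega, ?_, ?_, ha5, ha6, ?_⟩
      · intro i hi
        rw [ha3 i (by omega)]
        exact hx1' i (by omega)
      · intro i hi
        rw [ha4 i hi]
        exact hx1U i hi
      · intro x'' hx''
        rw [ht x'' (hPc x'' hx''), ht x' (hPc x' fun i _ _ => rfl)]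
        exact ha7 x'' hx''
    by_cases hPx : P x1
    · refine hgoal t1 (fun x'' h => ?_) (ih1 U x1 lo2 (lo2 + L) (by omega) le_rfl hfalse)
      simp only [QTree.eval, if_pos (h.2 hPx)]
    · refine hgoal t0 (fun x'' h => ?_) (ih0 U x1 lo2 (lo2 + L) (by omega) le_rfl hfalse)
      simp only [QTree.eval, if_neg (fun h' => hPx (h.1 h'))]

/-- among the positions below `H` there is a last one with value `true`, and it is odd -/
def OddMax (H : ℕ) (x : ℕ → Bool) : Prop :=
  ∃ i < H, i % 2 = 1 ∧ x i = true ∧ ∀ j, i < j → j < H → x j = false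

/-- **Adversary argument.** No decision tree with few threshold queries computes the parity of the
maximum -/
theorem adversary {d w τ q H : ℕ} {T : QTree} (hT : Fits d w τ q T) (hH : need d w τ q ≤ H)
    (x₀ : ℕ → Bool) (hx₀ : ∀ i < H, x₀ i = false) :
    ∃ x : ℕ → Bool, (∀ i, H ≤ i → x i = x₀ i) ∧ (T.eval x = true ↔ ¬ OddMax H x) := by
  obtain ⟨x', a, _, ha2, ha3, _, _, _, ha7⟩ := adversary_aux (τ := τ) hT ∅ x₀ 0 H (by simp)
    (by simpa using hH) (fun i _ hi => hx₀ i hi)
  have hx' : ∀ i, a ≤ i → i < H → x' i = false := by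
    intro i hi hiH
    rw [ha3 i (by omega)]
    exact hx₀ i hiH
  have hx'H : ∀ i, H ≤ i → x' i = x₀ i := fun i hi => ha3 i (by omega)
  -- put a one at the position `b`
  have hput : ∀ b, (b = a ∨ b = a + 1) → ∃ x : ℕ → Bool, (∀ i, H ≤ i → x i = x₀ i) ∧
      T.eval x = T.eval x' ∧ (OddMax H x ↔ b % 2 = 1) := by
    intro b hb
    refine ⟨Function.update x' b true, fun i hi => ?_, ?_, ?_⟩
    · rw [Function.update_of_ne (by omega)]
      exact hx'H i hi
    · refine ha7 _ fun i h1 h2 => ?_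
      rw [Function.update_of_ne (by omega)]
    · constructor
      · rintro ⟨i, hiH, hi2, hix, hij⟩
        by_cases hib : i = b
        · rwa [hib] at hi2
        · exfalso
          rw [Function.update_of_ne hib] at hix
          have hia : i < a := by
            by_contra h
            have := hx' i (not_lt.1 h) hiH
            rw [this] at hix
            exact absurd hix (by simp)
          have := hij b (by omega) (by omega)
          rw [Function.update_self] at this
          exact absurd this (by simp)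
      · intro hb2
        refine ⟨b, by omega, hb2, Function.update_self _ _ _, fun j hj hjH => ?_⟩
        rw [Function.update_of_ne (by omega)]
        exact hx' j (by omega) hjH
  -- an even and an odd position
  obtain ⟨b0, hb0, hb0'⟩ : ∃ b, (b = a ∨ b = a + 1) ∧ b % 2 = 0 := by
    rcases Nat.mod_two_eq_zero_or_one a with h | h
    · exact ⟨a, Or.inl rfl, h⟩
    · exact ⟨a + 1, Or.inr rfl, by omega⟩
  obtain ⟨b1, hb1, hb1'⟩ : ∃ b, (b = a ∨ b = a + 1) ∧ b % 2 = 1 := by
    rcases Nat.mod_two_eq_zero_or_one a with h | h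
    · exact ⟨a + 1, Or.inr rfl, by omega⟩
    · exact ⟨a, Or.inl rfl, h⟩
  by_cases hev : T.eval x' = true
  · obtain ⟨x, h1, h2, h3⟩ := hput b0 hb0
    refine ⟨x, h1, ?_⟩
    rw [h2, h3]
    constructor
    · intro _; omega
    · intro _; exact hev
  · obtain ⟨x, h1, h2, h3⟩ := hput b1 hb1
    refine ⟨x, h1, ?_⟩
    rw [h2, h3]
    constructor
    · intro h; exact absurd h hev
    · intro h; exact absurd hb1' h

end O2PP
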