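import Mathlib

/-!
# A polynomial of degree at most `d`, equal to one at `0` and bounded by two in absolute value at
the points `16 i ^ 2`, is positive at `1`
-/

namespace O2PP

open Finset Polynomial
open scoped Nat

/-- partial sums of the series of inverse squares -/
theorem sum_inv_sq_le (d : ℕ) : ∑ i ∈ range d, 1 / ((i : ℝ) + 1) ^ 2 ≤ 2 := by
  have h : ∀ d : ℕ, ∑ i ∈ range (d + 1), 1 / ((i : ℝ) + 1) ^ 2 ≤ 2 - 1 / ((d : ℝ) + 1) := by
    intro d
    induction d with
    | zero => norm_num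
    | succ d ih =>
      rw [sum_range_succ]
      have h1 : (0 : ℝ) < (d : ℝ) + 1 := by positivity
      have h2 : (0 : ℝ) < (d : ℝ) + 2 := by positivity
      have : 1 / (((d + 1 : ℕ) : ℝ) + 1) ^ 2 ≤ 1 / ((d : ℝ) + 1) - 1 / (((d + 1 : ℕ) : ℝ) + 1) := by
        push_cast
        rw [div_sub_div _ _ (by positivity) (by positivity), div_le_div_iff₀ (by positivity)
          (by positivity)]
        nlinarith
      linarith
  rcases d with _ | d
  · simp
  · refine (h d).trans ?_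
    have : (0 : ℝ) ≤ 1 / ((d : ℝ) + 1) := by positivity
    linarith

theorem one_sub_sum_le_prod (s : Finset ℕ) (a : ℕ → ℝ) (h0 : ∀ i ∈ s, 0 ≤ a i)
    (h1 : ∀ i ∈ s, a i ≤ 1) : 1 - ∑ i ∈ s, a i ≤ ∏ i ∈ s, (1 - a i) ∧ ∏ i ∈ s, (1 - a i) ≤ 1 := by
  classical
  induction s using Finset.induction_on with
  | empty => simp
  | insert i s hi ih =>
    have ih' := ih (fun j hj => h0 j (mem_insert_of_mem hj)) fun j hj => h1 j (mem_insert_of_mem hj)
    have hp : 0 ≤ ∏ i ∈ s, (1 - a i) :=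
      prod_nonneg fun j hj => by linarith [h1 j (mem_insert_of_mem hj)]
    have ha0 := h0 i (mem_insert_self i s)
    have ha1 := h1 i (mem_insert_self i s)
    rw [prod_insert hi, sum_insert hi]
    constructor
    · nlinarith [ih'.1, ih'.2]
    · nlinarith [ih'.1, ih'.2]

/-- the factor belonging to the node `j` in the Lagrange basis polynomial of the node `i` -/
noncomputable def gfac (i j : ℕ) : ℝ :=
  if j = 0 then 1 / (16 * (i : ℝ) ^ 2) else (j : ℝ) ^ 2 / |(i : ℝ) ^ 2 - (j : ℝ) ^ 2|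

theorem prod_gfac_base (e : ℕ) :
    ∏ j ∈ range e, gfac (e + 1) (j + 1) = 2 * ((e + 1)! : ℝ) ^ 2 / ((2 * (e + 1))! : ℝ) := by
  have h1 : ∀ j ∈ range e, gfac (e + 1) (j + 1) =
      (((j + 1 : ℕ) : ℝ) * ((j + 1 : ℕ) : ℝ)) / (((e - j : ℕ) : ℝ) * ((e + 2 + j : ℕ) : ℝ)) := by
    intro j hj
    have hj' : j < e := mem_range.1 hj
    have hc : ((e - j : ℕ) : ℝ) = (e : ℝ) - j := by
      rw [Nat.cast_sub hj'.le]
    have hje : (j : ℝ) < e := by exact_mod_cast hj'
    rw [gfac, if_neg (Nat.succ_ne_zero j)]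
    have : ((e + 1 : ℕ) : ℝ) ^ 2 - ((j + 1 : ℕ) : ℝ) ^ 2 =
        ((e : ℝ) - j) * ((e + 2 + j : ℕ) : ℝ) := by
      push_cast; ring
    rw [this, abs_of_pos (mul_pos (by linarith) (by positivity)), hc, sq]
  rw [prod_congr rfl h1, prod_div_distrib, prod_mul_distrib, prod_mul_distrib]
  have hA : ∏ j ∈ range e, ((j + 1 : ℕ) : ℝ) = (e ! : ℝ) := by
    rw [← Nat.cast_prod, prod_range_add_one_eq_factorial]
  have hB : ∏ j ∈ range e, ((e - j : ℕ) : ℝ) = (e ! : ℝ) := by
    rw [← hA, ← prod_range_reflect]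
    refine prod_congr rfl fun j hj => ?_
    have hj' : j < e := mem_range.1 hj
    congr 1
    omega
  have hC : ((e + 1)! : ℝ) * ∏ j ∈ range e, ((e + 2 + j : ℕ) : ℝ) = ((2 * e + 1)! : ℝ) := by
    rw [← Nat.cast_prod, ← Nat.ascFactorial_eq_prod_range, ← Nat.cast_mul,
      Nat.factorial_mul_ascFactorial]
    congr 2
    omega
  rw [hA, hB]
  have he : (0 : ℝ) < (e ! : ℝ) := by positivity
  have he1 : (0 : ℝ) < ((e + 1)! : ℝ) := by positivity
  have hD : (0 : ℝ) < ∏ j ∈ range e, ((e + 2 + j : ℕ) : ℝ) :=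
    prod_pos fun j _ => by positivity
  have h3 : ((2 * (e + 1))! : ℝ) = (2 * e + 2) * ((2 * e + 1)! : ℝ) := by
    rw [show 2 * (e + 1) = (2 * e + 1) + 1 by ring, Nat.factorial_succ]
    push_cast
    ring
  rw [h3, ← hC]
  have h4 : ((e + 1)! : ℝ) = (e + 1) * (e ! : ℝ) := by
    rw [Nat.factorial_succ]
    push_cast
    ring
  rw [div_eq_div_iff (by positivity) (by positivity), h4]
  ring

theorem prod_gfac {i d : ℕ} (hi : 1 ≤ i) (hd : i ≤ d) :
    ∏ j ∈ (range (d + 1)).erase i, gfac i j =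
      1 / (16 * (i : ℝ) ^ 2) * (2 * (d ! : ℝ) ^ 2 / (((d - i)! : ℝ) * ((d + i)! : ℝ))) := by
  obtain ⟨e, rfl⟩ : ∃ e, i = e + 1 := ⟨i - 1, by omega⟩
  induction d, hd using Nat.le_induction with
  | base =>
    have : (range (e + 1 + 1)).erase (e + 1) = range (e + 1) := by
      ext j
      simp only [mem_erase, mem_range]
      omega
    rw [this, prod_range_succ', prod_gfac_base, Nat.sub_self, Nat.factorial_zero, gfac,
      if_pos rfl, show e + 1 + (e + 1) = 2 * (e + 1) by ring]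
    push_cast
    ring
  | succ d hd ih =>
    have h1 : (range (d + 1 + 1)).erase (e + 1) = insert (d + 1) ((range (d + 1)).erase (e + 1)) := by
      ext j
      simp only [mem_erase, mem_range, mem_insert]
      omega
    have h2 : d + 1 ∉ (range (d + 1)).erase (e + 1) := by simp
    rw [h1, prod_insert h2, ih, gfac, if_neg (Nat.succ_ne_zero d)]
    have h3 : d + 1 - (e + 1) = (d - (e + 1)) + 1 := by omega
    have h4 : d + 1 + (e + 1) = (d + (e + 1)) + 1 := by omega
    rw [h3, h4, Nat.factorial_succ, Nat.factorial_succ, Nat.factorial_succ]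
    have hc : ((d - (e + 1) : ℕ) : ℝ) = (d : ℝ) - (e + 1) := by
      rw [Nat.cast_sub hd]; push_cast; ring
    have hde : ((e : ℝ) + 1) ≤ d := by exact_mod_cast hd
    have h5 : |((e + 1 : ℕ) : ℝ) ^ 2 - ((d + 1 : ℕ) : ℝ) ^ 2| =
        ((d : ℝ) - (e + 1) + 1) * ((d : ℝ) + (e + 1) + 1) := by
      rw [abs_of_nonpos]
      · push_cast; ring
      · push_cast
        nlinarith [Nat.cast_nonneg (α := ℝ) e, Nat.cast_nonneg (α := ℝ) d]
    rw [h5]
    have h6 : (0 : ℝ) < (d : ℝ) - (e + 1) + 1 := by linarith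
    have h7 : (0 : ℝ) < (d : ℝ) + (e + 1) + 1 := by positivity
    have h8 : (0 : ℝ) < ((d - (e + 1))! : ℝ) := by positivity
    have h9 : (0 : ℝ) < ((d + (e + 1))! : ℝ) := by positivity
    push_cast
    rw [hc]
    have h6' : (d : ℝ) - (e + 1) + 1 ≠ 0 := h6.ne'
    have h7' : (d : ℝ) + (e + 1) + 1 ≠ 0 := h7.ne'
    field_simp

theorem prod_gfac_le {i d : ℕ} (hi : 1 ≤ i) (hd : i ≤ d) :
    ∏ j ∈ (range (d + 1)).erase i, gfac i j ≤ 1 / (8 * (i : ℝ) ^ 2) := by
  rw [prod_gfac hi hd]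
  have hfac : (d ! : ℝ) ^ 2 ≤ ((d - i)! : ℝ) * ((d + i)! : ℝ) := by
    have h1 : (2 * d).choose (d - i) ≤ (2 * d).choose d := Nat.choose_le_centralBinom _ _
    have h2 : (2 * d).choose (d - i) * (d - i)! * (d + i)! = (2 * d)! := by
      have := Nat.choose_mul_factorial_mul_factorial (show d - i ≤ 2 * d by omega)
      rwa [show 2 * d - (d - i) = d + i by omega] at this
    have h3 : (2 * d).choose d * d ! * d ! = (2 * d)! := by
      have := Nat.choose_mul_factorial_mul_factorial (show d ≤ 2 * d by omega)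
      rwa [show 2 * d - d = d by omega] at this
    have h4 : 0 < (2 * d).choose d := Nat.choose_pos (by omega)
    have h5 : d ! ^ 2 ≤ (d - i)! * (d + i)! := by
      by_contra hlt
      push Not at hlt
      have h6 : (2 * d).choose (d - i) * ((d - i)! * (d + i)!) <
          (2 * d).choose d * d ! ^ 2 :=
        calc (2 * d).choose (d - i) * ((d - i)! * (d + i)!)
            ≤ (2 * d).choose d * ((d - i)! * (d + i)!) := Nat.mul_le_mul_right _ h1
          _ < (2 * d).choose d * d ! ^ 2 := Nat.mul_lt_mul_of_pos_left hlt h4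
      rw [← mul_assoc, h2, sq, ← mul_assoc, h3] at h6
      exact lt_irrefl _ h6
    exact_mod_cast h5
  have h8 : (0 : ℝ) < ((d - i)! : ℝ) * ((d + i)! : ℝ) := by positivity
  have h10 : 2 * (d ! : ℝ) ^ 2 / (((d - i)! : ℝ) * ((d + i)! : ℝ)) ≤ 2 := by
    rw [div_le_iff₀ h8]; linarith
  have hi' : (0 : ℝ) < (i : ℝ) := by exact_mod_cast hi
  calc 1 / (16 * (i : ℝ) ^ 2) * (2 * (d ! : ℝ) ^ 2 / (((d - i)! : ℝ) * ((d + i)! : ℝ)))
      ≤ 1 / (16 * (i : ℝ) ^ 2) * 2 := mul_le_mul_of_nonneg_left h10 (by positivity)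
    _ = 1 / (8 * (i : ℝ) ^ 2) := by field_simp; norm_num

/-- the main inequality -/
theorem eval_one_pos {d : ℕ} {f : ℝ[X]} (hf : f.natDegree ≤ d) (h0 : f.eval 0 = 1)
    (hb : ∀ i : ℕ, 1 ≤ i → i ≤ d → |f.eval (16 * (i : ℝ) ^ 2)| ≤ 2) : 0 < f.eval 1 := by
  set v : ℕ → ℝ := fun i => 16 * (i : ℝ) ^ 2 with hv
  have hinj : Set.InjOn v (range (d + 1) : Finset ℕ) := by
    intro a _ b _ hab
    simp only [hv] at hab
    have : (a : ℝ) ^ 2 = (b : ℝ) ^ 2 := by linarith
    have h2 : (a : ℝ) = b := by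
      exact (pow_left_inj₀ (Nat.cast_nonneg a) (Nat.cast_nonneg b) two_ne_zero).1 this
    exact_mod_cast h2
  have hdeg : f.degree < #(range (d + 1)) := by
    rw [card_range]
    calc f.degree ≤ f.natDegree := degree_le_natDegree
      _ ≤ (d : WithBot ℕ) := by exact_mod_cast hf
      _ < ((d + 1 : ℕ) : WithBot ℕ) := by exact_mod_cast Nat.lt_succ_self d
  have hint := Lagrange.eq_interpolate hinj hdeg
  have hev : f.eval 1 = ∑ i ∈ range (d + 1), f.eval (v i) *
      ∏ j ∈ (range (d + 1)).erase i, (1 - v j) / (v i - v j) := by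
    conv_lhs => rw [hint]
    rw [Lagrange.interpolate_apply, eval_finsetSum]
    refine sum_congr rfl fun i _ => ?_
    rw [eval_mul, eval_C, Lagrange.basis, eval_prod]
    congr 1
    refine prod_congr rfl fun j _ => ?_
    simp only [Lagrange.basisDivisor, eval_mul, eval_C, eval_sub, eval_X]
    rw [div_eq_inv_mul]
  rw [hev, sum_range_succ']
  have hv0 : v 0 = 0 := by simp [hv]
  -- the node `0`
  have hzero : 7 / 8 ≤ f.eval (v 0) *
      ∏ j ∈ (range (d + 1)).erase 0, (1 - v j) / (v 0 - v j) := by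
    rw [hv0, h0, one_mul]
    have hset : (range (d + 1)).erase 0 = (range d).map ⟨Nat.succ, Nat.succ_injective⟩ := by
      ext j
      simp only [mem_erase, mem_range, mem_map, Function.Embedding.coeFn_mk]
      constructor
      · rintro ⟨h1, h2⟩
        exact ⟨j - 1, by omega, by omega⟩
      · rintro ⟨k, hk, rfl⟩
        exact ⟨Nat.succ_ne_zero k, by omega⟩
    rw [hset, prod_map]
    have hfac : ∀ j ∈ range d, (1 - v (Nat.succ j)) / (0 - v (Nat.succ j)) =
        1 - 1 / 16 * (1 / ((j : ℝ) + 1) ^ 2) := by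
      intro j _
      simp only [hv]
      push_cast
      have : (j : ℝ) + 1 ≠ 0 := by positivity
      field_simp
      ring
    simp only [Function.Embedding.coeFn_mk]
    rw [prod_congr rfl hfac]
    have := (one_sub_sum_le_prod (range d) (fun j => 1 / 16 * (1 / ((j : ℝ) + 1) ^ 2))
      (fun j _ => by positivity) (fun j _ => by
        have h1 : (1 : ℝ) ≤ ((j : ℝ) + 1) ^ 2 := by
          nlinarith [Nat.cast_nonneg (α := ℝ) j]
        have h2 : 1 / ((j : ℝ) + 1) ^ 2 ≤ 1 := by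
          rw [div_le_one (by positivity)]; exact h1
        linarith)).1
    refine le_trans ?_ this
    rw [← mul_sum]
    linarith [sum_inv_sq_le d]
  -- the other nodes
  have hrest : ∀ i ∈ range d, -(1 / 4 * (1 / ((i : ℝ) + 1) ^ 2)) ≤ f.eval (v (i + 1)) *
      ∏ j ∈ (range (d + 1)).erase (i + 1), (1 - v j) / (v (i + 1) - v j) := by
    intro i hi
    have hid : i + 1 ≤ d := mem_range.1 hi
    have h1 : |f.eval (v (i + 1))| ≤ 2 := hb (i + 1) (by omega) hid
    have h2 : |∏ j ∈ (range (d + 1)).erase (i + 1), (1 - v j) / (v (i + 1) - v j)| ≤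
        1 / (8 * (((i + 1 : ℕ) : ℝ)) ^ 2) := by
      rw [abs_prod]
      refine le_trans (prod_le_prod (fun j _ => abs_nonneg _) fun j hj => ?_)
        (prod_gfac_le (show 1 ≤ i + 1 by omega) hid)
      rw [abs_div, gfac]
      have hji : j ≠ i + 1 := (mem_erase.1 hj).1
      split_ifs with hj0
      · subst hj0
        rw [hv0]
        simp only [sub_zero, abs_one, hv]
        rw [abs_of_nonneg (by positivity)]
      · have hj1 : 1 ≤ j := Nat.one_le_iff_ne_zero.2 hj0
        have hj1' : (1 : ℝ) ≤ j := by exact_mod_cast hj1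
        simp only [hv]
        rw [← mul_sub, abs_mul, abs_of_pos (show (0 : ℝ) < 16 by norm_num)]
        have hne : ((i + 1 : ℕ) : ℝ) ^ 2 - (j : ℝ) ^ 2 ≠ 0 := by
          intro h
          apply hji
          have : ((i + 1 : ℕ) : ℝ) ^ 2 = (j : ℝ) ^ 2 := by linarith
          have h2 := (pow_left_inj₀ (Nat.cast_nonneg _) (Nat.cast_nonneg j) two_ne_zero).1 this
          exact_mod_cast h2.symm
        have hpos : 0 < |((i + 1 : ℕ) : ℝ) ^ 2 - (j : ℝ) ^ 2| := abs_pos.2 hne
        rw [div_le_div_iff₀ (by positivity) hpos]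
        have habs : |1 - 16 * (j : ℝ) ^ 2| ≤ 16 * (j : ℝ) ^ 2 := by
          rw [abs_of_nonpos (by nlinarith)]
          linarith
        calc |1 - 16 * (j : ℝ) ^ 2| * |((i + 1 : ℕ) : ℝ) ^ 2 - (j : ℝ) ^ 2|
            ≤ 16 * (j : ℝ) ^ 2 * |((i + 1 : ℕ) : ℝ) ^ 2 - (j : ℝ) ^ 2| :=
              mul_le_mul_of_nonneg_right habs hpos.le
          _ = (j : ℝ) ^ 2 * (16 * |((i + 1 : ℕ) : ℝ) ^ 2 - (j : ℝ) ^ 2|) := by ring
    have h3 : |f.eval (v (i + 1)) *
        ∏ j ∈ (range (d + 1)).erase (i + 1), (1 - v j) / (v (i + 1) - v j)| ≤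
        1 / 4 * (1 / ((i : ℝ) + 1) ^ 2) := by
      rw [abs_mul]
      calc |f.eval (v (i + 1))| *
            |∏ j ∈ (range (d + 1)).erase (i + 1), (1 - v j) / (v (i + 1) - v j)|
          ≤ 2 * (1 / (8 * (((i + 1 : ℕ) : ℝ)) ^ 2)) :=
            mul_le_mul h1 h2 (abs_nonneg _) (by norm_num)
        _ = 1 / 4 * (1 / ((i : ℝ) + 1) ^ 2) := by
            push_cast
            field_simp
            norm_num
    exact (abs_le.1 h3).1
  have hsum : -(1 / 2) ≤ ∑ i ∈ range d, f.eval (v (i + 1)) *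
      ∏ j ∈ (range (d + 1)).erase (i + 1), (1 - v j) / (v (i + 1) - v j) := by
    refine le_trans ?_ (sum_le_sum hrest)
    rw [sum_neg_distrib, ← mul_sum]
    linarith [sum_inv_sq_le d]
  linarith

end O2PP
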