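import Pool.Agent.Work.MP_a81742_lc.MDeg

/-!
# Halving the number of successful candidates

Every candidate `α` proposes, for each of `K` instances, a value, given by the quotients
`N c α i / (N false α i + N true α i)` of integer functions of low degree. There is an assignment
for which the product over all instances of the quotients of the right values, summed over all
candidates, is at most the number of candidates divided by `2 ^ K`.
-/

namespace O2PP

open Finset

variable {σ : Type*}

theorem MDeg.prod {ι : Type*} {a : ℕ} (s : Finset ι) {f : ι → (σ → Bool) → ℤ}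
    (hf : ∀ i ∈ s, MDeg a (f i)) : MDeg (s.card * a) (fun x => ∏ i ∈ s, f i x) := by
  classical
  induction s using Finset.induction_on with
  | empty => simpa using MDeg.const (σ := σ) (d := 0) 1
  | insert i s hi ih =>
    have h1 := MDeg.mul (hf i (mem_insert_self i s)) (ih fun j hj => hf j (mem_insert_of_mem hj))
    have h2 : (fun x => ∏ j ∈ insert i s, f j x) = fun x => f i x * ∏ j ∈ s, f j x := by
      funext x
      rw [prod_insert hi]
    rw [h2, card_insert_of_notMem hi]
    exact h1.mono_le (by ring_nf; omega)

theorem blk_inj {R i j v v' : ℕ} (hv : v < R) (hv' : v' < R) (h : i * R + v = j * R + v') :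
    i = j ∧ v = v' := by
  have h1 : (i * R + v) / R = i := by
    rw [add_comm, Nat.add_mul_div_right _ _ (by omega), Nat.div_eq_of_lt hv, zero_add]
  have h2 : (j * R + v') / R = j := by
    rw [add_comm, Nat.add_mul_div_right _ _ (by omega), Nat.div_eq_of_lt hv', zero_add]
  have hij : i = j := by rw [← h1, ← h2, h]
  subst hij
  exact ⟨rfl, by omega⟩

/-- sums of fractions with a common denominator -/
theorem sum_frac {ι : Type*} [Fintype ι] [DecidableEq ι] (P Q : ι → ℝ) (hQ : ∀ α, 0 < Q α) :
    ∑ α, P α / Q α = (∑ α, P α * ∏ β ∈ univ.erase α, Q β) / ∏ β, Q β := by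
  rw [eq_div_iff (prod_pos fun β _ => hQ β).ne', sum_mul]
  refine sum_congr rfl fun α _ => ?_
  rw [← mul_prod_erase univ Q (mem_univ α)]
  have := (hQ α).ne'
  field_simp

/-- the length factor which one step of the halving costs -/
def cost (card K D W : ℕ) : ℕ :=
  (16 * (card * (K * D)) ^ 2 + 1) * (card * (K * W) + card + 2 + 1)

theorem one_le_cost (card K D W : ℕ) : 1 ≤ cost card K D W :=
  Nat.mul_pos (by positivity) (by positivity)

/-- **Halving.** -/
theorem halving {ι : Type*} [Fintype ι] {K D W R : ℕ} (N : Bool → ι → ℕ → (ℕ → Bool) → ℤ)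
    (hdeg : ∀ c α, ∀ i < K, MDeg D (N c α i)) (hpos : ∀ c α, ∀ i < K, ∀ u, 0 ≤ N c α i u)
    (hone : ∀ α, ∀ i < K, ∀ u, 1 ≤ N false α i u + N true α i u)
    (hW : ∀ α, ∀ i < K, ∀ u, N false α i u + N true α i u ≤ 2 ^ W)
    (hR : 2 * cost (Fintype.card ι) K D W ^ K ≤ R) (u₀ : ℕ → Bool)
    (hu₀ : ∀ p < K * R, u₀ p = false) :
    ∃ u f : ℕ → Bool, (∀ p, K * R ≤ p → u p = u₀ p) ∧
      (∀ i < K, ∃ v < R, (v % 2 = 1 ↔ f i = true) ∧ u (i * R + v) = true ∧
        ∀ v', v < v' → v' < R → u (i * R + v') = false) ∧
      ∑ α, ∏ i ∈ range K, ((N (f i) α i u : ℝ) / ((N false α i u + N true α i u : ℤ) : ℝ)) ≤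
        (Fintype.card ι : ℝ) / 2 ^ K := by
  classical
  set c : ℕ := cost (Fintype.card ι) K D W with hc
  have hc1 : 1 ≤ c := one_le_cost _ _ _ _
  have key : ∀ i ≤ K, ∃ (u f : ℕ → Bool) (o : ℕ), o + 2 * c ^ (K - i) ≤ R ∧
      (∀ p, K * R ≤ p → u p = u₀ p) ∧
      (∀ i' < i, ∃ v < R, (v % 2 = 1 ↔ f i' = true) ∧ u (i' * R + v) = true ∧
        ∀ v', v < v' → v' < R → u (i' * R + v') = false) ∧
      (∀ i', i ≤ i' → i' < K → ∀ v, o ≤ v → v < R → u (i' * R + v) = false) ∧
      ∀ u' : ℕ → Bool, (∀ p, (¬ ∃ i', i ≤ i' ∧ i' < K ∧ i' * R + o ≤ p ∧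
          p < i' * R + o + 2 * c ^ (K - i)) → u' p = u p) →
        ∑ α, ∏ i' ∈ range i,
          ((N (f i') α i' u' : ℝ) / ((N false α i' u' + N true α i' u' : ℤ) : ℝ)) ≤
          (Fintype.card ι : ℝ) / 2 ^ i := by
    intro i
    induction i with
    | zero =>
      intro _
      refine ⟨u₀, fun _ => false, 0, by simpa using hR, fun _ _ => rfl,
        fun i' hi' => absurd hi' (Nat.not_lt_zero _), ?_, ?_⟩
      · intro i' _ hi' v _ hv
        refine hu₀ _ ?_
        calc i' * R + v < i' * R + R := by omega
          _ = (i' + 1) * R := by ring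
          _ ≤ K * R := Nat.mul_le_mul_right R hi'
      · intro u' _
        simp
    | succ i ih =>
      intro hiK
      obtain ⟨u, f, o, ho, hout, hdone, hzero, hsum⟩ := ih (by omega)
      have hi : i < K := hiK
      set L : ℕ := 2 * c ^ (K - (i + 1)) with hL
      have hKi : K - i = (K - (i + 1)) + 1 := by omega
      have hcL : 2 * c ^ (K - i) = c * L := by
        rw [hKi, pow_succ, hL]; ring
      have hL2 : 2 ≤ L := by
        have : 1 ≤ c ^ (K - (i + 1)) := Nat.one_le_pow _ _ hc1
        omega
      -- the polynomials
      set Num : ι → (ℕ → Bool) → ℤ := fun α x =>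
        (∏ i' ∈ range i, N (f i') α i' x) * (N true α i x - N false α i x) with hNum
      set Den : ι → (ℕ → Bool) → ℤ := fun α x =>
        ∏ i' ∈ range (i + 1), (N false α i' x + N true α i' x) with hDen
      set Φ : (ℕ → Bool) → ℤ := fun x => ∑ α, Num α x * ∏ β ∈ univ.erase α, Den β x with hΦ
      have hNumdeg : ∀ α, MDeg (K * D) (Num α) := by
        intro α
        have h1 := MDeg.prod (range i) (f := fun i' => N (f i') α i') fun i' hi' =>
          hdeg (f i') α i' (by have := mem_range.1 hi'; omega)
        have h2 := MDeg.mul h1 ((hdeg true α i hi).sub (hdeg false α i hi))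
        refine h2.mono_le ?_
        rw [card_range]
        calc i * D + D = (i + 1) * D := by ring
          _ ≤ K * D := Nat.mul_le_mul_right D hi
      have hDendeg : ∀ α, MDeg (K * D) (Den α) := by
        intro α
        have h1 := MDeg.prod (range (i + 1)) (f := fun i' x => N false α i' x + N true α i' x)
          fun i' hi' => (hdeg false α i' (by have := mem_range.1 hi'; omega)).add
            (hdeg true α i' (by have := mem_range.1 hi'; omega))
        refine h1.mono_le ?_
        rw [card_range]
        exact Nat.mul_le_mul_right D hi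
      have hΦdeg : MDeg (Fintype.card ι * (K * D)) Φ := by
        refine MDeg.sum univ fun α _ => ?_
        have h1 := MDeg.mul (hNumdeg α) (MDeg.prod (univ.erase α) fun β _ => hDendeg β)
        refine h1.mono_le ?_
        rw [card_erase_of_mem (mem_univ α), card_univ]
        have : 0 < Fintype.card ι := Fintype.card_pos_iff.2 ⟨α⟩
        obtain ⟨k, hk⟩ : ∃ k, Fintype.card ι = k + 1 := ⟨Fintype.card ι - 1, by omega⟩
        rw [hk, Nat.add_sub_cancel]
        exact le_of_eq (by ring)
      have hDen1 : ∀ α x, 1 ≤ Den α x := by
        intro α x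
        refine Finset.prod_induction _ (fun z : ℤ => 1 ≤ z) (fun a b ha hb => ?_) le_rfl ?_
        · nlinarith
        · intro i' hi'
          exact hone α i' (by have := mem_range.1 hi'; omega) x
      have hDenW : ∀ α x, Den α x ≤ 2 ^ (K * W) := by
        intro α x
        have h1 : Den α x ≤ ∏ _i' ∈ range (i + 1), (2 : ℤ) ^ W := by
          refine Finset.prod_le_prod ?_ ?_
          · intro i' hi'
            have := hone α i' (by have := mem_range.1 hi'; omega) x
            linarith
          · intro i' hi'
            exact hW α i' (by have := mem_range.1 hi'; omega) x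
        rw [prod_const, card_range, ← pow_mul] at h1
        refine h1.trans (pow_le_pow_right₀ (by norm_num) ?_)
        rw [mul_comm]
        exact Nat.mul_le_mul_right W hi
      have hNumDen : ∀ α x, |Num α x| ≤ Den α x := by
        intro α x
        simp only [hNum, hDen]
        rw [abs_mul, prod_range_succ, abs_prod]
        refine mul_le_mul ?_ ?_ (abs_nonneg _) ?_
        · refine Finset.prod_le_prod (fun _ _ => abs_nonneg _) fun i' hi' => ?_
          have hi'K : i' < K := by have := mem_range.1 hi'; omega
          rw [abs_of_nonneg (hpos _ α i' hi'K x)]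
          rcases f i' with _ | _
          · linarith [hpos true α i' hi'K x]
          · linarith [hpos false α i' hi'K x]
        · rw [abs_le]
          constructor
          · linarith [hpos true α i hi x]
          · linarith [hpos false α i hi x]
        · refine Finset.prod_nonneg fun i' hi' => ?_
          have hi'K : i' < K := by have := mem_range.1 hi'; omega
          linarith [hone α i' hi'K x]
      have hΦW : ∀ x, |Φ x| ≤ 2 ^ (Fintype.card ι * (K * W) + Fintype.card ι) := by
        intro x
        have h1 : |Φ x| ≤ ∑ _α : ι, (2 : ℤ) ^ (Fintype.card ι * (K * W)) := by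
          refine (abs_sum_le_sum_abs _ _).trans (sum_le_sum fun α _ => ?_)
          rw [abs_mul, abs_prod]
          have h2 : |Num α x| * ∏ β ∈ univ.erase α, |Den β x| ≤ ∏ β, Den β x := by
            rw [← mul_prod_erase univ (fun β => Den β x) (mem_univ α)]
            refine mul_le_mul (hNumDen α x) ?_ (Finset.prod_nonneg fun _ _ => abs_nonneg _)
              (by linarith [hDen1 α x])
            refine le_of_eq (prod_congr rfl fun β _ => abs_of_nonneg ?_)
            linarith [hDen1 β x]
          refine h2.trans ?_
          have h3 : ∏ β, Den β x ≤ ∏ _β : ι, (2 : ℤ) ^ (K * W) :=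
            Finset.prod_le_prod (fun β _ => by linarith [hDen1 β x]) fun β _ => hDenW β x
          rwa [prod_const, card_univ, ← pow_mul, mul_comm (K * W)] at h3
        rw [sum_const, card_univ, nsmul_eq_mul] at h1
        refine h1.trans ?_
        rw [pow_add, mul_comm]
        refine mul_le_mul_of_nonneg_left ?_ (by positivity)
        exact_mod_cast Nat.lt_two_pow_self.le
      -- the relation with the sums
      set rat : Bool → ι → ℕ → (ℕ → Bool) → ℝ := fun b α i' x =>
        (N b α i' x : ℝ) / ((N false α i' x + N true α i' x : ℤ) : ℝ) with hrat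
      have hdpos : ∀ α, ∀ i' < K, ∀ x, (0 : ℝ) < ((N false α i' x + N true α i' x : ℤ) : ℝ) := by
        intro α i' hi' x
        have := hone α i' hi' x
        have h2 : (0 : ℤ) < N false α i' x + N true α i' x := by linarith
        exact_mod_cast h2
      have hDenpos : ∀ α x, (0 : ℝ) < (Den α x : ℝ) := by
        intro α x
        have := hDen1 α x
        have h2 : (0 : ℤ) < Den α x := by linarith
        exact_mod_cast h2
      have hdiff : ∀ x, (∑ α, (∏ i' ∈ range i, rat (f i') α i' x) * (rat true α i x)) -
          (∑ α, (∏ i' ∈ range i, rat (f i') α i' x) * (rat false α i x)) =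
            (Φ x : ℝ) / ∏ β, (Den β x : ℝ) := by
        intro x
        rw [← sum_sub_distrib]
        have h1 : ∀ α ∈ (univ : Finset ι), (∏ i' ∈ range i, rat (f i') α i' x) * (rat true α i x) -
            (∏ i' ∈ range i, rat (f i') α i' x) * (rat false α i x) =
              (Num α x : ℝ) / (Den α x : ℝ) := by
          intro α _
          have hd := (hdpos α i hi x).ne'
          have hprod : ∏ i' ∈ range i, rat (f i') α i' x =
              (∏ i' ∈ range i, (N (f i') α i' x : ℝ)) /
                ∏ i' ∈ range i, ((N false α i' x + N true α i' x : ℤ) : ℝ) := by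
            rw [← prod_div_distrib]
          have hD0 : (∏ i' ∈ range i, ((N false α i' x + N true α i' x : ℤ) : ℝ)) ≠ 0 := by
            refine (Finset.prod_pos fun i' hi' => ?_).ne'
            exact hdpos α i' (by have := mem_range.1 hi'; omega) x
          have hNumc : (Num α x : ℝ) = (∏ i' ∈ range i, (N (f i') α i' x : ℝ)) *
              ((N true α i x : ℝ) - (N false α i x : ℝ)) := by
            simp only [hNum]
            push_cast
            ring
          have hDenc : (Den α x : ℝ) =
              (∏ i' ∈ range i, ((N false α i' x + N true α i' x : ℤ) : ℝ)) *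
                ((N false α i x + N true α i x : ℤ) : ℝ) := by
            simp only [hDen]
            rw [prod_range_succ]
            push_cast
            ring
          rw [hprod, hNumc, hDenc]
          simp only [hrat]
          rw [← mul_sub, ← sub_div, div_mul_div_comm]
        rw [sum_congr rfl h1, sum_frac _ _ fun α => hDenpos α x]
        congr 1
        simp only [hΦ]
        push_cast
        rfl
      have hadd : ∀ x, (∑ α, (∏ i' ∈ range i, rat (f i') α i' x) * (rat true α i x)) +
          (∑ α, (∏ i' ∈ range i, rat (f i') α i' x) * (rat false α i x)) =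
            ∑ α, ∏ i' ∈ range i, rat (f i') α i' x := by
        intro x
        rw [← sum_add_distrib]
        refine sum_congr rfl fun α _ => ?_
        rw [← mul_add]
        have hd := hdpos α i hi x
        have : rat true α i x + rat false α i x = 1 := by
          simp only [hrat]
          rw [← add_div, div_eq_one_iff_eq hd.ne']
          push_cast
          ring
        rw [this, mul_one]
      have hprodpos : ∀ x, (0 : ℝ) < ∏ β, (Den β x : ℝ) := fun x =>
        Finset.prod_pos fun β _ => hDenpos β x
      -- the key lemma
      have hp : MDeg (Fintype.card ι * (K * D)) (fun x => 2 * Φ x + 1) :=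
        (hΦdeg.smul 2).add (MDeg.const 1)
      have hne : ∀ x, 2 * Φ x + 1 ≠ 0 := fun x h => by omega
      have hwt : ∀ x, |2 * Φ x + 1| ≤ 2 ^ (Fintype.card ι * (K * W) + Fintype.card ι + 2) := by
        intro x
        have h1 := hΦW x
        have h2 : |2 * Φ x + 1| ≤ 2 * |Φ x| + 1 := by
          refine (abs_add_le _ _).trans ?_
          rw [abs_mul]
          norm_num
        have h3 : (1 : ℤ) ≤ 2 ^ (Fintype.card ι * (K * W) + Fintype.card ι) :=
          one_le_pow₀ (by norm_num)
        rw [pow_add]
        linarith
      let B : ℕ → Set ℕ := fun j => {p | ∃ i', i ≤ i' ∧ i' < K ∧ i' * R + o + j * L ≤ p ∧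
        p < i' * R + o + (j + 1) * L}
      have hinside : ∀ j < c, o + (j + 1) * L ≤ R := by
        intro j hj
        have : (j + 1) * L ≤ c * L := Nat.mul_le_mul_right L hj
        omega
      have hB : ∀ a < c, ∀ b < c, a ≠ b → Disjoint (B a) (B b) := by
        intro a ha b hb hab
        refine Set.disjoint_left.2 ?_
        rintro p ⟨i1, h1, h2, h3, h4⟩ ⟨i2, h5, h6, h7, h8⟩
        have ha' := hinside a ha
        have hb' := hinside b hb
        have e1 : p = i1 * R + (p - i1 * R) := by omega
        have e2 : p = i2 * R + (p - i2 * R) := by omega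
        have h9 := blk_inj (R := R) (i := i1) (j := i2) (v := p - i1 * R) (v' := p - i2 * R)
          (by omega) (by omega) (by rw [← e1, ← e2])
        obtain ⟨rfl, _⟩ := h9
        rcases lt_or_gt_of_ne hab with h | h
        · have : (a + 1) * L ≤ b * L := Nat.mul_le_mul_right L h
          omega
        · have : (b + 1) * L ≤ a * L := Nat.mul_le_mul_right L h
          omega
      obtain ⟨j, hj, x, hx, hsgn⟩ := key_lemma hp hne hwt (le_of_eq hc.symm) B hB u
      set o' : ℕ := o + j * L with ho'
      have hjin := hinside j hj
      have hjL : (j + 1) * L = j * L + L := by ring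
      have hjc : (j + 1) * L ≤ 2 * c ^ (K - i) := by
        rw [hcL]
        exact Nat.mul_le_mul_right L hj
      -- outside of the lower intervals `x` is `u`
      have hxu : ∀ p, (¬ ∃ i', i ≤ i' ∧ i' < K ∧ i' * R + o ≤ p ∧ p < i' * R + o') →
          x p = u p := by
        intro p hp'
        refine hx p fun k hk hpk => hp' ?_
        obtain ⟨i', h1, h2, h3, h4⟩ := hpk
        have : (k + 1) * L ≤ j * L := Nat.mul_le_mul_right L hk
        exact ⟨i', h1, h2, by omega, by omega⟩
      have hxzero : ∀ i', i ≤ i' → i' < K → ∀ v, o' ≤ v → v < R → x (i' * R + v) = false := by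
        intro i' h1 h2 v h3 h4
        rw [hxu]
        · exact hzero i' h1 h2 v (by omega) h4
        · rintro ⟨i2, h5, h6, h7, h8⟩
          have e1 : i' * R + v = i2 * R + (i' * R + v - i2 * R) := by omega
          obtain ⟨rfl, h9⟩ := blk_inj (R := R) (i := i') (j := i2) (v := v)
            (v' := i' * R + v - i2 * R) h4 (by omega) e1
          omega
      -- the value for the instance `i`
      set b : Bool := if 0 < 2 * Φ x + 1 then false else true with hb
      obtain ⟨v, hv1, hv2, hv3⟩ : ∃ v, o' ≤ v ∧ v < o' + 2 ∧ (v % 2 = 1 ↔ b = true) := by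
        rcases hbv : b with _ | _
        · rcases Nat.mod_two_eq_zero_or_one o' with h | h
          · exact ⟨o', le_rfl, by omega, by simp [h]⟩
          · exact ⟨o' + 1, by omega, by omega, by
              have : (o' + 1) % 2 = 0 := by omega
              simp [this]⟩
        · rcases Nat.mod_two_eq_zero_or_one o' with h | h
          · exact ⟨o' + 1, by omega, by omega, by
              have : (o' + 1) % 2 = 1 := by omega
              simp [this]⟩
          · exact ⟨o', le_rfl, by omega, by simp [h]⟩
      have hvR : v < R := by omega
      set u1 : ℕ → Bool := Function.update x (i * R + v) true with hu1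
      have hu1x : ∀ p, p ≠ i * R + v → u1 p = x p := fun p hp' => Function.update_of_ne hp' _ _
      have hblk : ∀ i' v' : ℕ, v' < R → i' ≠ i → i' * R + v' ≠ i * R + v := by
        intro i' v' hv' hii h
        exact hii (blk_inj hv' hvR h).1
      refine ⟨u1, Function.update f i b, o', ?_, ?_, ?_, ?_, ?_⟩
      · omega
      · intro p hp'
        have h1 : p ≠ i * R + v := by
          intro h
          have : (i + 1) * R ≤ K * R := Nat.mul_le_mul_right R hi
          have h3 : (i + 1) * R = i * R + R := by ring
          omega
        rw [hu1x p h1, hxu, hout p hp']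
        rintro ⟨i', h2, h3, h4, h5⟩
        have : (i' + 1) * R ≤ K * R := Nat.mul_le_mul_right R h3
        have h6 : (i' + 1) * R = i' * R + R := by ring
        omega
      · intro i' hi'
        by_cases hii : i' = i
        · subst hii
          refine ⟨v, hvR, ?_, ?_, ?_⟩
          · rw [Function.update_self]; exact hv3
          · rw [hu1, Function.update_self]
          · intro v' h1 h2
            rw [hu1x _ (by omega)]
            exact hxzero i' le_rfl hi v' (by omega) h2
        · have hi'i : i' < i := by omega
          obtain ⟨v0, h1, h2, h3, h4⟩ := hdone i' hi'i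
          have hsame : ∀ v' < R, u1 (i' * R + v') = u (i' * R + v') := by
            intro v' hv'
            rw [hu1x _ (hblk i' v' hv' hii), hxu]
            rintro ⟨i2, h5, h6, h7, h8⟩
            have e1 : i' * R + v' = i2 * R + (i' * R + v' - i2 * R) := by omega
            have h9 := (blk_inj (R := R) (i := i') (j := i2) (v := v')
              (v' := i' * R + v' - i2 * R) hv' (by omega) e1).1
            omega
          refine ⟨v0, h1, ?_, ?_, ?_⟩
          · rw [Function.update_of_ne hii]; exact h2
          · rw [hsame v0 h1]; exact h3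
          · intro v' h5 h6
            rw [hsame v' h6]
            exact h4 v' h5 h6
      · intro i' h1 h2 v' h3 h4
        rw [hu1x _ (hblk i' v' h4 (by omega))]
        exact hxzero i' (by omega) h2 v' h3 h4
      · intro u' hu'
        -- `u'` differs from `x` only inside the block `B j`
        have hu'x : ∀ p, p ∉ B j → u' p = x p := by
          intro p hp'
          have h1 : p ≠ i * R + v := by
            rintro rfl
            exact hp' ⟨i, le_rfl, hi, by omega, by omega⟩
          rw [← hu1x p h1]
          refine hu' p ?_
          rintro ⟨i', h2, h3, h4, h5⟩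
          exact hp' ⟨i', by omega, h3, by omega, by omega⟩
        have hsign := hsgn u' hu'x
        -- `u'` differs from `u` only in the alive intervals
        have hS := hsum u' (by
          intro p hp'
          have h1 : p ∉ B j := by
            rintro ⟨i', h2, h3, h4, h5⟩
            exact hp' ⟨i', h2, h3, by omega, by omega⟩
          rw [hu'x p h1, hxu]
          rintro ⟨i', h2, h3, h4, h5⟩
          exact hp' ⟨i', h2, h3, h4, by omega⟩)
        have hsucc : ∑ α, ∏ i' ∈ range (i + 1),
            ((N (Function.update f i b i') α i' u' : ℝ) /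
              ((N false α i' u' + N true α i' u' : ℤ) : ℝ)) =
            ∑ α, (∏ i' ∈ range i, rat (f i') α i' u') * (rat b α i u') := by
          refine sum_congr rfl fun α _ => ?_
          rw [prod_range_succ]
          congr 1
          · refine prod_congr rfl fun i' hi' => ?_
            rw [Function.update_of_ne (by have := mem_range.1 hi'; omega)]
          · rw [Function.update_self]
        rw [hsucc]
        have h1 := hdiff u'
        have h2 := hadd u'
        have h3 : ∑ α, ∏ i' ∈ range i, rat (f i') α i' u' ≤ (Fintype.card ι : ℝ) / 2 ^ i := hS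
        have h4 : (Fintype.card ι : ℝ) / 2 ^ (i + 1) = ((Fintype.card ι : ℝ) / 2 ^ i) / 2 := by
          rw [pow_succ]; field_simp
        rw [h4]
        by_cases hc0 : 0 < 2 * Φ x + 1
        · have hbf : b = false := by rw [hb, if_pos hc0]
          have h5 : 0 < 2 * Φ u' + 1 := hsign.2 hc0
          have h6 : 0 ≤ Φ u' := by omega
          have h7 : (0 : ℝ) ≤ (Φ u' : ℝ) / ∏ β, (Den β u' : ℝ) :=
            div_nonneg (by exact_mod_cast h6) (hprodpos u').le
          rw [hbf]
          linarith
        · have hbf : b = true := by rw [hb, if_neg hc0]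
          have h5 : ¬ 0 < 2 * Φ u' + 1 := fun h => hc0 (hsign.1 h)
          have h6 : Φ u' ≤ 0 := by omega
          have h7 : (Φ u' : ℝ) / ∏ β, (Den β u' : ℝ) ≤ 0 :=
            div_nonpos_of_nonpos_of_nonneg (by exact_mod_cast h6) (hprodpos u').le
          rw [hbf]
          linarith
  obtain ⟨u, f, o, _, h1, h2, _, h3⟩ := key K le_rfl
  exact ⟨u, f, h1, h2, h3 u fun _ _ => rfl⟩

end O2PP
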