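import Pool.Agent.Work.MP_a81742_lc.DivDiff

/-!
# Integer valued functions of low degree on a cube, symmetrisation, and growth
-/

namespace O2PP

open Finset Polynomial

variable {σ τ : Type*}

/-- the product of the coordinates in `T` -/
def mono (T : Finset σ) (x : σ → Bool) : ℤ := ∏ i ∈ T, if x i = true then 1 else 0

/-- `f` is an integer combination of products of at most `d` coordinates -/
def MDeg (d : ℕ) (f : (σ → Bool) → ℤ) : Prop :=
  f ∈ Submodule.span ℤ {g : (σ → Bool) → ℤ | ∃ T : Finset σ, T.card ≤ d ∧ g = mono T}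

theorem mono_eq (T : Finset σ) (x : σ → Bool) :
    mono T x = if ∀ i ∈ T, x i = true then 1 else 0 := by
  classical
  induction T using Finset.induction_on with
  | empty => simp [mono]
  | insert a T ha ih =>
    rw [mono, prod_insert ha, ← mono, ih]
    by_cases h1 : x a = true <;> simp [h1]

theorem mono_union [DecidableEq σ] (T U : Finset σ) (x : σ → Bool) :
    mono (T ∪ U) x = mono T x * mono U x := by
  rw [mono_eq, mono_eq, mono_eq]
  by_cases h1 : ∀ i ∈ T, x i = true
  · by_cases h2 : ∀ i ∈ U, x i = true
    · rw [if_pos h1, if_pos h2, if_pos]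
      · rfl
      · intro i hi
        rcases mem_union.1 hi with h | h
        · exact h1 i h
        · exact h2 i h
    · rw [if_neg h2, if_neg, mul_zero]
      exact fun h => h2 fun i hi => h i (mem_union_right _ hi)
  · rw [if_neg h1, if_neg, zero_mul]
    exact fun h => h1 fun i hi => h i (mem_union_left _ hi)

namespace MDeg

theorem of_mono {d : ℕ} (T : Finset σ) (hT : T.card ≤ d) : MDeg d (mono T) :=
  Submodule.subset_span ⟨T, hT, rfl⟩

theorem add {d : ℕ} {f g : (σ → Bool) → ℤ} (hf : MDeg d f) (hg : MDeg d g) :
    MDeg d (fun x => f x + g x) :=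
  Submodule.add_mem _ hf hg

theorem neg {d : ℕ} {f : (σ → Bool) → ℤ} (hf : MDeg d f) : MDeg d (fun x => -f x) :=
  Submodule.neg_mem _ hf

theorem sub {d : ℕ} {f g : (σ → Bool) → ℤ} (hf : MDeg d f) (hg : MDeg d g) :
    MDeg d (fun x => f x - g x) :=
  Submodule.sub_mem _ hf hg

theorem smul {d : ℕ} {f : (σ → Bool) → ℤ} (c : ℤ) (hf : MDeg d f) : MDeg d (fun x => c * f x) :=
  Submodule.smul_mem _ c hf

theorem sum {d : ℕ} {ι : Type*} (s : Finset ι) {f : ι → (σ → Bool) → ℤ}
    (hf : ∀ i ∈ s, MDeg d (f i)) : MDeg d (fun x => ∑ i ∈ s, f i x) := by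
  have : (fun x => ∑ i ∈ s, f i x) = ∑ i ∈ s, f i := by
    funext x
    rw [Finset.sum_apply]
  rw [this]
  exact Submodule.sum_mem _ hf

theorem mono_le {d e : ℕ} (h : d ≤ e) {f : (σ → Bool) → ℤ} (hf : MDeg d f) : MDeg e f := by
  refine Submodule.span_mono ?_ hf
  rintro g ⟨T, hT, rfl⟩
  exact ⟨T, hT.trans h, rfl⟩

theorem const {d : ℕ} (c : ℤ) : MDeg d (fun _ : σ → Bool => c) := by
  have : (fun _ : σ → Bool => c) = fun x => c * mono (∅ : Finset σ) x := by
    funext x
    simp [mono]
  rw [this]
  exact smul c (of_mono ∅ (by simp))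

theorem coord {d : ℕ} (hd : 1 ≤ d) (i : σ) :
    MDeg d (fun x : σ → Bool => if x i = true then 1 else 0) := by
  have : (fun x : σ → Bool => (if x i = true then 1 else 0 : ℤ)) = mono {i} := by
    funext x
    simp [mono]
  rw [this]
  exact of_mono {i} (by simpa using hd)

theorem mul {a b : ℕ} {f g : (σ → Bool) → ℤ} (hf : MDeg a f) (hg : MDeg b g) :
    MDeg (a + b) (fun x => f x * g x) := by
  classical
  have h1 : ∀ (T : Finset σ), T.card ≤ a → ∀ g : (σ → Bool) → ℤ, MDeg b g →
      MDeg (a + b) (fun x => mono T x * g x) := by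
    intro T hT g hg
    refine Submodule.span_induction (p := fun g _ => MDeg (a + b) (fun x => mono T x * g x))
      ?_ ?_ ?_ ?_ hg
    · rintro g ⟨U, hU, rfl⟩
      have : (fun x => mono T x * mono U x) = mono (T ∪ U) := by
        funext x
        rw [mono_union]
      rw [this]
      exact of_mono _ ((card_union_le T U).trans (by omega))
    · simpa using const (σ := σ) (d := a + b) 0
    · intro g h _ _ hg hh
      have := add hg hh
      simpa [mul_add] using this
    · intro c g _ hg
      have := smul c hg
      have h2 : (fun x => mono T x * (c • g) x) = fun x => c * (mono T x * g x) := by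
        funext x
        simp only [Pi.smul_apply, smul_eq_mul]
        ring
      rw [h2]
      exact this
  refine Submodule.span_induction (p := fun f _ => MDeg (a + b) (fun x => f x * g x))
    ?_ ?_ ?_ ?_ hf
  · rintro f ⟨T, hT, rfl⟩
    exact h1 T hT g hg
  · simpa using const (σ := σ) (d := a + b) 0
  · intro f h _ _ hf hh
    have := add hf hh
    simpa [add_mul] using this
  · intro c f _ hf
    have := smul c hf
    have h2 : (fun x => (c • f) x * g x) = fun x => c * (f x * g x) := by
      funext x
      simp only [Pi.smul_apply, smul_eq_mul]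
      ring
    rw [h2]
    exact this

/-- a function of one coordinate -/
theorem of_one {f : (σ → Bool) → ℤ} (i : σ) (hf : ∀ x y : σ → Bool, x i = y i → f x = f y) :
    MDeg 1 f := by
  classical
  have : f = fun x => f (fun _ => false) +
      (f (fun _ => true) - f (fun _ => false)) * (if x i = true then 1 else 0) := by
    funext x
    rcases hx : x i with _ | _
    · simp only [Bool.false_eq_true, if_false, mul_zero, add_zero]
      exact hf _ _ hx
    · simp only [if_true, mul_one, add_sub_cancel]
      exact hf _ _ hx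
  rw [this]
  exact add (const _) (smul _ (coord le_rfl i))

theorem prod_of_one {ι : Type*} (T : Finset ι) (f : ι → (σ → Bool) → ℤ)
    (hf : ∀ i ∈ T, MDeg 1 (f i)) : MDeg T.card (fun x => ∏ i ∈ T, f i x) := by
  classical
  induction T using Finset.induction_on with
  | empty => simpa using const (σ := σ) (d := 0) 1
  | insert a T ha ih =>
    have h1 := mul (hf a (mem_insert_self a T)) (ih fun i hi => hf i (mem_insert_of_mem hi))
    rw [card_insert_of_notMem ha, add_comm]
    have h2 : (fun x => ∏ i ∈ insert a T, f i x) = fun x => f a x * ∏ i ∈ T, f i x := by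
      funext x
      rw [prod_insert ha]
    rw [h2]
    exact h1

/-- substitution of functions of one coordinate -/
theorem comp {d : ℕ} {f : (σ → Bool) → ℤ} (hf : MDeg d f) (φ : (τ → Bool) → σ → Bool)
    (hφ : ∀ i : σ, (∀ z z', φ z i = φ z' i) ∨ ∃ j : τ, ∀ z z' : τ → Bool, z j = z' j →
      φ z i = φ z' i) : MDeg d (fun z => f (φ z)) := by
  refine Submodule.span_induction (p := fun f _ => MDeg d (fun z => f (φ z))) ?_ ?_ ?_ ?_ hf
  · rintro f ⟨T, hT, rfl⟩
    refine mono_le hT ?_
    have h1 : (fun z => mono T (φ z)) = fun z => ∏ i ∈ T, if φ z i = true then (1 : ℤ) else 0 := rfl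
    rw [h1]
    refine prod_of_one T _ fun i _ => ?_
    rcases hφ i with h | ⟨j, hj⟩
    · have h2 : (fun z => if φ z i = true then (1 : ℤ) else 0) =
          fun _ => if φ (fun _ => false) i = true then (1 : ℤ) else 0 := by
        funext z
        rw [h z fun _ => false]
      rw [h2]
      exact const _
    · refine of_one j fun x y hxy => ?_
      rw [hj x y hxy]
  · exact const 0
  · intro f g _ _ h1 h2
    exact add h1 h2
  · intro c f _ h1
    exact smul c h1

end MDeg

/-- the indicator vector of a finite set -/
def ind [DecidableEq σ] (S : Finset σ) (i : σ) : Bool := decide (i ∈ S)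

theorem card_supersets [Fintype σ] [DecidableEq σ] (T : Finset σ) (t : ℕ) (hT : T.card ≤ t) :
    #{S ∈ powersetCard t (univ : Finset σ) | T ⊆ S} =
      (Fintype.card σ - T.card).choose (t - T.card) := by
  have h1 : {S ∈ powersetCard t (univ : Finset σ) | T ⊆ S} =
      (powersetCard (t - T.card) Tᶜ).image fun U => U ∪ T := by
    ext S
    simp only [mem_filter, mem_powersetCard, subset_univ, true_and, mem_image]
    constructor
    · rintro ⟨h2, h3⟩
      refine ⟨S \ T, ⟨?_, ?_⟩, ?_⟩
      · intro i hi
        exact mem_compl.2 (mem_sdiff.1 hi).2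
      · rw [card_sdiff_of_subset h3, h2]
      · exact sdiff_union_of_subset h3
    · rintro ⟨U, ⟨h2, h3⟩, rfl⟩
      refine ⟨?_, subset_union_right⟩
      rw [card_union_of_disjoint, h3, Nat.sub_add_cancel hT]
      exact disjoint_left.2 fun i hi hiT => (mem_compl.1 (h2 hi)) hiT
  rw [h1, card_image_of_injOn, card_powersetCard, card_compl]
  intro U hU V hV hUV
  have h2 : ∀ W ∈ powersetCard (t - T.card) Tᶜ, (W ∪ T) \ T = W := by
    intro W hW
    ext i
    simp only [mem_sdiff, mem_union]
    constructor
    · rintro ⟨h | h, h'⟩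
      · exact h
      · exact absurd h h'
    · intro h
      exact ⟨Or.inl h, mem_compl.1 ((mem_powersetCard.1 hW).1 h)⟩
  have h3 : (U ∪ T) \ T = (V ∪ T) \ T := by
    have : U ∪ T = V ∪ T := hUV
    rw [this]
  rwa [h2 U (mem_coe.1 hU), h2 V (mem_coe.1 hV)] at h3

/-- symmetrisation: the mean over the vectors of weight `t` is a polynomial in `t` -/
theorem symmetrise [Fintype σ] [DecidableEq σ] {d : ℕ} {f : (σ → Bool) → ℤ} (hf : MDeg d f) :
    ∃ Q : ℝ[X], Q.natDegree ≤ d ∧ ∀ t ≤ Fintype.card σ,
      ∑ S ∈ powersetCard t (univ : Finset σ), (f (ind S) : ℝ) =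
        ((Fintype.card σ).choose t : ℝ) * Q.eval (t : ℝ) := by
  refine Submodule.span_induction (p := fun f _ => ∃ Q : ℝ[X], Q.natDegree ≤ d ∧
    ∀ t ≤ Fintype.card σ, ∑ S ∈ powersetCard t (univ : Finset σ), (f (ind S) : ℝ) =
        ((Fintype.card σ).choose t : ℝ) * Q.eval (t : ℝ)) ?_ ?_ ?_ ?_ hf
  · rintro f ⟨T, hT, rfl⟩
    set s := Fintype.card σ with hs
    have hTs : T.card ≤ s := card_le_univ T
    refine ⟨C (((T.card.factorial : ℝ) * (s.choose T.card : ℝ))⁻¹) * descPochhammer ℝ T.card,
      ?_, ?_⟩
    · refine (natDegree_C_mul_le _ _).trans ?_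
      rw [descPochhammer_natDegree]
      exact hT
    · intro t ht
      rw [eval_mul, eval_C, descPochhammer_eval_eq_descFactorial,
        Nat.descFactorial_eq_factorial_mul_choose]
      have hsum : ∑ S ∈ powersetCard t (univ : Finset σ), ((mono T (ind S) : ℤ) : ℝ) =
          (#{S ∈ powersetCard t (univ : Finset σ) | T ⊆ S} : ℝ) := by
        rw [card_filter]
        push_cast
        refine sum_congr rfl fun S _ => ?_
        rw [mono_eq]
        have : (∀ i ∈ T, ind S i = true) ↔ T ⊆ S := by
          simp only [ind, decide_eq_true_eq]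
          exact Iff.rfl
        by_cases h : T ⊆ S
        · rw [if_pos (this.2 h), if_pos h]; norm_num
        · rw [if_neg (fun h' => h (this.1 h')), if_neg h]; norm_num
      rw [hsum]
      have hpos : (0 : ℝ) < (s.choose T.card : ℝ) := by
        exact_mod_cast Nat.choose_pos hTs
      have hfac : (0 : ℝ) < (T.card.factorial : ℝ) := by positivity
      by_cases hTt : T.card ≤ t
      · rw [card_supersets T t hTt, ← hs]
        have h2 := Nat.choose_mul (n := s) hTt
        have h3 : (s.choose t : ℝ) * (t.choose T.card : ℝ) =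
            (s.choose T.card : ℝ) * ((s - T.card).choose (t - T.card) : ℝ) := by
          exact_mod_cast h2
        push_cast
        field_simp
        linarith
      · have h2 : #{S ∈ powersetCard t (univ : Finset σ) | T ⊆ S} = 0 := by
          rw [card_eq_zero, filter_eq_empty_iff]
          intro S hS hTS
          have := card_le_card hTS
          rw [(mem_powersetCard.1 hS).2] at this
          exact hTt this
        rw [h2, Nat.choose_eq_zero_of_lt (not_le.1 hTt)]
        simp
  · exact ⟨0, by simp, fun t _ => by simp⟩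
  · rintro f g _ _ ⟨Q, hQ, hQ'⟩ ⟨R, hR, hR'⟩
    refine ⟨Q + R, (natDegree_add_le _ _).trans (max_le hQ hR), fun t ht => ?_⟩
    rw [eval_add, mul_add, ← hQ' t ht, ← hR' t ht, ← sum_add_distrib]
    refine sum_congr rfl fun S _ => ?_
    simp
  · rintro c f _ ⟨Q, hQ, hQ'⟩
    refine ⟨C (c : ℝ) * Q, (natDegree_C_mul_le _ _).trans hQ, fun t ht => ?_⟩
    rw [eval_mul, eval_C, mul_left_comm, ← hQ' t ht, mul_sum]
    refine sum_congr rfl fun S _ => ?_
    simp

/-- a function of degree at most `d` on a cube of dimension at least `16 d ^ 2 + 1` which is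
positive at the origin and nonpositive at the unit vectors takes somewhere a value more than twice
as large -/
theorem growth [Fintype σ] [DecidableEq σ] {d : ℕ} (hs : 16 * d ^ 2 + 1 ≤ Fintype.card σ)
    {q : (σ → Bool) → ℤ} (hq : MDeg d q) (h0 : 0 < q fun _ => false)
    (h1 : ∀ i : σ, q (ind {i}) ≤ 0) : ∃ z, 2 * q (fun _ => false) < |q z| := by
  by_contra hcon
  push Not at hcon
  set M : ℤ := q fun _ => false with hM
  have hM' : (0 : ℝ) < (M : ℝ) := by exact_mod_cast h0
  obtain ⟨Q, hQd, hQ⟩ := symmetrise hq
  have hbound : ∀ t ≤ Fintype.card σ, |Q.eval (t : ℝ)| ≤ 2 * M := by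
    intro t ht
    have hpos : (0 : ℝ) < ((Fintype.card σ).choose t : ℝ) := by
      exact_mod_cast Nat.choose_pos ht
    have h2 : |((Fintype.card σ).choose t : ℝ) * Q.eval (t : ℝ)| ≤
        ((Fintype.card σ).choose t : ℝ) * (2 * M) := by
      rw [← hQ t ht]
      refine (abs_sum_le_sum_abs _ _).trans ?_
      have h3 : ∀ S ∈ powersetCard t (univ : Finset σ), |(q (ind S) : ℝ)| ≤ 2 * M := by
        intro S _
        exact_mod_cast hcon (ind S)
      refine (sum_le_sum h3).trans ?_
      rw [sum_const, card_powersetCard, card_univ, nsmul_eq_mul]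
    rw [abs_mul, abs_of_pos hpos] at h2
    exact le_of_mul_le_mul_left h2 hpos
  have hzero : Q.eval 0 = M := by
    have h2 := hQ 0 (Nat.zero_le _)
    rw [powersetCard_zero, sum_singleton, Nat.choose_zero_right, Nat.cast_one, one_mul,
      Nat.cast_zero] at h2
    rw [← h2, hM]
    congr 2
  have hone : Q.eval 1 ≤ 0 := by
    have h2 := hQ 1 (by omega)
    rw [Nat.choose_one_right, Nat.cast_one] at h2
    have h3 : ∑ S ∈ powersetCard 1 (univ : Finset σ), (q (ind S) : ℝ) ≤ 0 := by
      refine sum_nonpos fun S hS => ?_
      obtain ⟨i, rfl⟩ := card_eq_one.1 (mem_powersetCard.1 hS).2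
      exact_mod_cast h1 i
    have h4 : (0 : ℝ) < (Fintype.card σ : ℝ) := by
      have : 0 < Fintype.card σ := by omega
      exact_mod_cast this
    by_contra h5
    push Not at h5
    have := mul_pos h4 h5
    linarith
  have h6 : 0 < (C ((M : ℝ)⁻¹) * Q).eval 1 := by
    refine eval_one_pos (d := d) ((natDegree_C_mul_le _ _).trans hQd) ?_ ?_
    · rw [eval_mul, eval_C, hzero, inv_mul_cancel₀ hM'.ne']
    · intro i _ hid
      have h7 : 16 * i ^ 2 ≤ Fintype.card σ := by
        have : i ^ 2 ≤ d ^ 2 := Nat.pow_le_pow_left hid 2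
        omega
      have h8 := hbound _ h7
      push_cast at h8
      rw [eval_mul, eval_C, abs_mul, abs_of_pos (inv_pos.2 hM'), inv_mul_le_iff₀ hM']
      linarith
  rw [eval_mul, eval_C] at h6
  have := inv_pos.2 hM'
  nlinarith

/-- **Key lemma.** Let `p` be a nonvanishing integer valued function of degree at most `d`,
bounded by `2 ^ w`, and let `B 0, …, B (m - 1)` be disjoint blocks of coordinates, where
`(16 d ^ 2 + 1) (w + 1) ≤ m`. Then there are a block `B j` and an assignment `x`, which differs from
the given one `x₀` only in the lower blocks, such that the sign of `p` does not change when `x` is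
changed inside `B j`. -/
theorem key_lemma {d w m : ℕ} {p : (σ → Bool) → ℤ} (hp : MDeg d p) (hne : ∀ x, p x ≠ 0)
    (hw : ∀ x, |p x| ≤ 2 ^ w) (hm : (16 * d ^ 2 + 1) * (w + 1) ≤ m) (B : ℕ → Set σ)
    (hB : ∀ i < m, ∀ j < m, i ≠ j → Disjoint (B i) (B j)) (x₀ : σ → Bool) :
    ∃ j < m, ∃ x : σ → Bool, (∀ i, (∀ k < j, i ∉ B k) → x i = x₀ i) ∧
      ∀ x' : σ → Bool, (∀ i, i ∉ B j → x' i = x i) → (0 < p x' ↔ 0 < p x) := by
  classical
  by_contra hcon
  push Not at hcon
  set s : ℕ := 16 * d ^ 2 + 1 with hs
  have hgrow : ∀ k : ℕ, s * k ≤ m → ∃ x : σ → Bool,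
      (∀ i, (∀ l < s * k, i ∉ B l) → x i = x₀ i) ∧ 2 ^ k ≤ |p x| := by
    intro k
    induction k with
    | zero =>
      intro _
      refine ⟨x₀, fun i _ => rfl, ?_⟩
      simpa using Int.one_le_abs (hne x₀)
    | succ k ih =>
      intro hk
      obtain ⟨x, hx, hpx⟩ := ih (le_trans (Nat.mul_le_mul_left s (Nat.le_succ k)) hk)
      have hlt : ∀ i : Fin s, s * k + i < m := by
        intro i
        have : s * (k + 1) = s * k + s := by ring
        have := i.2
        omega
      -- an assignment of the block `s k + i` which changes the sign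
      have hch : ∀ i : Fin s, ∃ x' : σ → Bool, (∀ l, l ∉ B (s * k + i) → x' l = x l) ∧
          ¬ (0 < p x' ↔ 0 < p x) := by
        intro i
        refine (hcon (s * k + i) (hlt i) x ?_).imp fun x' h => ⟨h.1, ?_⟩
        · intro l hl
          exact hx l fun j hj => hl j (by omega)
        · intro h3
          rcases h.2 with h4 | h4
          · exact absurd (h3.1 h4.1) (not_lt.2 h4.2)
          · exact absurd (h3.2 h4.2) (not_lt.2 h4.1)
      choose x' hx' hsgn using hch
      -- the embedded cube
      let φ : (Fin s → Bool) → σ → Bool := fun z l =>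
        if h : ∃ i : Fin s, l ∈ B (s * k + i) ∧ z i = true then x' h.choose l else x l
      have huniq : ∀ (i i' : Fin s) (l : σ), l ∈ B (s * k + i) → l ∈ B (s * k + i') → i = i' := by
        intro i i' l h1 h2
        by_contra hii
        exact Set.disjoint_left.1 (hB _ (hlt i) _ (hlt i') (by
          intro h
          exact hii (Fin.ext (by omega)))) h1 h2
      have hφ1 : ∀ (z : Fin s → Bool) (i : Fin s) (l : σ), l ∈ B (s * k + i) →
          φ z l = if z i = true then x' i l else x l := by
        intro z i l hl
        by_cases hz : z i = true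
        · have h : ∃ i : Fin s, l ∈ B (s * k + i) ∧ z i = true := ⟨i, hl, hz⟩
          have h2 : h.choose = i := huniq _ _ l h.choose_spec.1 hl
          simp only [φ, dif_pos h, h2, if_pos hz]
        · have h : ¬ ∃ i : Fin s, l ∈ B (s * k + i) ∧ z i = true := by
            rintro ⟨i', hi', hz'⟩
            rw [huniq i' i l hi' hl] at hz'
            exact hz hz'
          simp only [φ, dif_neg h, if_neg hz]
      have hφ2 : ∀ (z : Fin s → Bool) (l : σ), (∀ i : Fin s, l ∉ B (s * k + i)) →
          φ z l = x l := by
        intro z l hl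
        have h : ¬ ∃ i : Fin s, l ∈ B (s * k + i) ∧ z i = true := fun ⟨i, hi, _⟩ => hl i hi
        simp only [φ, dif_neg h]
      have hφ0 : φ (fun _ => false) = x := by
        funext l
        have h : ¬ ∃ i : Fin s, l ∈ B (s * k + i) ∧ (fun _ : Fin s => false) i = true := by
          rintro ⟨_, _, h⟩
          exact absurd h (by simp)
        simp only [φ, dif_neg h]
      have hφe : ∀ i : Fin s, φ (ind {i}) = x' i := by
        intro i
        funext l
        by_cases hl : ∃ i' : Fin s, l ∈ B (s * k + i')
        · obtain ⟨i', hi'⟩ := hl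
          rw [hφ1 _ i' l hi']
          by_cases hii : i' = i
          · subst hii
            simp [ind]
          · have : l ∉ B (s * k + i) := fun h => hii (huniq _ _ l hi' h)
            rw [hx' i l this]
            simp [ind, hii]
        · push Not at hl
          rw [hφ2 _ l hl, hx' i l (hl i)]
      have hcomp : MDeg d (fun z => p (φ z)) := by
        refine hp.comp φ fun l => ?_
        by_cases hl : ∃ i' : Fin s, l ∈ B (s * k + i')
        · obtain ⟨i', hi'⟩ := hl
          refine Or.inr ⟨i', fun z z' hz => ?_⟩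
          rw [hφ1 z i' l hi', hφ1 z' i' l hi', hz]
        · push Not at hl
          exact Or.inl fun z z' => by rw [hφ2 z l hl, hφ2 z' l hl]
      have hcard : 16 * d ^ 2 + 1 ≤ Fintype.card (Fin s) := by simp [hs]
      have hfin : ∃ z, 2 * |p x| < |p (φ z)| := by
        rcases lt_or_gt_of_ne (hne x) with hneg | hpos
        · obtain ⟨z, hz⟩ := growth (q := fun z => -p (φ z)) hcard hcomp.neg
            (by rw [hφ0]; linarith) (fun i => by
              rw [hφe i]
              have h1 := hsgn i
              by_contra h2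
              push Not at h2
              apply h1
              constructor
              · intro h3; linarith
              · intro h3; linarith)
          refine ⟨z, ?_⟩
          rw [hφ0, abs_neg] at hz
          rwa [abs_of_neg hneg]
        · obtain ⟨z, hz⟩ := growth (q := fun z => p (φ z)) hcard hcomp
            (by rw [hφ0]; exact hpos) (fun i => by
              rw [hφe i]
              have h1 := hsgn i
              by_contra h2
              push Not at h2
              exact h1 ⟨fun _ => hpos, fun _ => h2⟩)
          refine ⟨z, ?_⟩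
          rw [hφ0] at hz
          rwa [abs_of_pos hpos]
      obtain ⟨z, hz⟩ := hfin
      refine ⟨φ z, ?_, ?_⟩
      · intro i hi
        rw [hφ2 z i fun j => hi _ (by
          have : s * (k + 1) = s * k + s := by ring
          have := j.2
          omega)]
        exact hx i fun l hl => hi l (by
          have : s * (k + 1) = s * k + s := by ring
          omega)
      · rw [pow_succ]
        linarith
  obtain ⟨x, _, hx⟩ := hgrow (w + 1) hm
  have h1 := hw x
  rw [pow_succ] at hx
  have h2 : (0 : ℤ) < 2 ^ w := by positivity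
  linarith

end O2PP
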